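import Pool.Agent.Helper77.TH.CNT

/-!
# Project SD, part X: counting the roots `ξ (ζ - u)` of a polynomial over `ℤ_p`
-/

set_option autoImplicit false

namespace Pool.Agent.Helper17.SDX

open Polynomial Pool.Agent.Helper17.TH Pool.Agent.Helper77.TH

/-- the norm of `ζ - u`, `u ≡ 1 mod p`, `p` odd -/
theorem norm_u {p : ℕ} [hp : Fact p.Prime] (hp2 : p ≠ 2) {u : ℤ_[p]} (hu : (p : ℤ_[p]) ∣ u - 1)
    {ζ : ℂ_[p]} {n : ℕ} (hn : 1 ≤ n) (hζ : IsPrimitiveRoot ζ (p ^ n)) :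
    ‖ζ - zc p u‖ = ‖1 - ζ‖ := by
  have hlt := norm_lt_one hn hζ
  obtain ⟨m, rfl⟩ : ∃ m, n = m + 1 := ⟨n - 1, by omega⟩
  have h1 := norm_pow_tot hζ
  have hp0 : (0 : ℝ) < (p : ℝ)⁻¹ := inv_pos.mpr (by exact_mod_cast hp.out.pos)
  have htot : 2 ≤ Nat.totient (p ^ (m + 1)) := by
    rw [Nat.totient_prime_pow_succ hp.out]
    have h3 : 2 ≤ p - 1 := by
      have := hp.out.two_le
      omega
    calc 2 = 1 * 2 := rfl
      _ ≤ p ^ m * (p - 1) := Nat.mul_le_mul (Nat.one_le_pow _ _ hp.out.pos) h3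
  have hpos : 0 < ‖1 - ζ‖ := by
    by_contra hcon
    have h3 : ‖1 - ζ‖ = 0 := le_antisymm (not_lt.mp hcon) (norm_nonneg _)
    rw [h3, zero_pow (by omega)] at h1
    exact hp0.ne h1
  have h2 : (p : ℝ)⁻¹ < ‖1 - ζ‖ := by
    obtain ⟨t, ht⟩ : ∃ t, Nat.totient (p ^ (m + 1)) = t + 2 := ⟨_, (Nat.sub_add_cancel htot).symm⟩
    rw [ht, pow_succ] at h1
    rw [← h1]
    calc ‖1 - ζ‖ ^ (t + 1) * ‖1 - ζ‖ < 1 * ‖1 - ζ‖ :=
          mul_lt_mul_of_pos_right (pow_lt_one₀ (norm_nonneg _) hlt (by omega)) hpos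
      _ = ‖1 - ζ‖ := one_mul _
  have h3 : ‖1 - zc p u‖ ≤ (p : ℝ)⁻¹ := by
    have h4 : ‖u - 1‖ ≤ (p : ℝ)⁻¹ := by
      have h5 := (PadicInt.norm_le_pow_iff_mem_span_pow (u - 1) 1).2 (by
        rw [pow_one, Ideal.mem_span_singleton]; exact hu)
      simpa using h5
    have h6 : 1 - zc p u = zc p (1 - u) := by rw [map_sub, map_one]
    rw [h6, norm_zc, norm_sub_rev]
    exact h4
  have h7 : ζ - zc p u = -(1 - ζ) + (1 - zc p u) := by ring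
  rw [h7]
  have h8 : ‖1 - zc p u‖ < ‖-(1 - ζ)‖ := by
    rw [norm_neg]
    exact h3.trans_lt h2
  rw [IsUltrametricDist.norm_add_eq_max_of_norm_ne_norm h8.ne', max_eq_left h8.le, norm_neg]

/-- counting -/
theorem cnt_u {p : ℕ} [hp : Fact p.Prime] (hp2 : p ≠ 2) {u : ℤ_[p]} (hu : (p : ℤ_[p]) ∣ u - 1)
    (ξ : ℂ_[p]) (d : ℕ) (hd : 0 < d) (hξ : ξ ^ d = 1) (N : ℕ) (D : ℤ_[p][X])
    (hD : D.eval 0 = (p : ℤ_[p]) ^ N) (s : Finset ℕ)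
    (hs : ∀ n ∈ s, 1 ≤ n ∧ ∃ ζ : ℂ_[p], IsPrimitiveRoot ζ (p ^ n) ∧
      D.eval₂ (zc p) (ξ * (ζ - zc p u)) = 0) : s.card ≤ N := by
  have hch : ∀ n : ℕ, ∃ ζ : ℂ_[p], n ∈ s → 1 ≤ n ∧ IsPrimitiveRoot ζ (p ^ n) ∧
      D.eval₂ (zc p) (ξ * (ζ - zc p u)) = 0 := by
    intro n
    by_cases hn : n ∈ s
    · obtain ⟨h1, ζ, h2, h3⟩ := hs n hn
      exact ⟨ζ, fun _ => ⟨h1, h2, h3⟩⟩
    · exact ⟨0, fun h => absurd h hn⟩
  choose ζ hζ using hch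
  have hξn : ‖ξ‖ = 1 := norm_root hd.ne' hξ
  have hnt : ∀ n ∈ s, ‖ξ * (ζ n - zc p u)‖ = ‖1 - ζ n‖ := fun n hn => by
    rw [norm_mul, hξn, one_mul, norm_u hp2 hu (hζ n hn).1 (hζ n hn).2.1]
  have hzu : (zc p).IsIntegralElem (zc p u) := (zc p).isIntegralElem_map
  have hti : ∀ n ∈ s, (zc p).IsIntegralElem (ξ * (ζ n - zc p u)) := fun n hn =>
    (integral_root hd hξ).mul _ ((integral_root (pow_pos hp.out.pos n)
      (hζ n hn).2.1.pow_eq_one).sub _ hzu)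
  have htower : @IsScalarTower ℤ_[p] ℚ_[p] ℂ_[p] _ _ (zc p).toAlgebra.toSMul :=
    @IsScalarTower.of_algebraMap_eq ℤ_[p] ℚ_[p] ℂ_[p] _ _ _ _ _ (zc p).toAlgebra fun x => rfl
  have htop : ∀ n ∈ s, IsIntegral ℚ_[p] (ξ * (ζ n - zc p u)) := fun n hn =>
    RingHom.IsIntegralElem.of_comp (hti n hn)
  refine @abs_cnt p hp ℂ_[p] _ (zc p).toAlgebra _ htower N D hD s
    (fun n => ξ * (ζ n - zc p u)) hti (fun n hn => (hζ n hn).2.2) ?_ ?_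
  · intro n hn m hm h
    refine norm_inj (hζ n hn).1 (hζ m hm).1 (hζ n hn).2.1 (hζ m hm).2.1 ?_
    rw [← hnt n hn, ← hnt m hm, norm_alg _ (htop n hn), norm_alg _ (htop m hm)]
    exact congrArg spectralValue h
  · intro n hn h hh
    refine dvd_const h (ξ * (ζ n - zc p u)) ?_ hh
    rw [hnt n hn]
    exact norm_lt_one (hζ n hn).1 (hζ n hn).2.1

end Pool.Agent.Helper17.SDX
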