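import Pool.Agent.Helper17.SDX.INSu
import Pool.Agent.Helper17.TH.RNG

/-!
# Project SD, part X: the abstract statement, twisted by a character with values in `1 + p ℤ_p`
-/

set_option autoImplicit false

namespace Pool.Agent.Helper17.SDX

open Module TensorProduct Polynomial
open Pool.Agent.Helper51.SigLeo Pool.Agent.Helper17.TH

section

variable {p : ℕ} [Fact p.Prime] {A : Type} [AddCommGroup A] {G : Type}
  [Group G] {act : G → A →+ A} {χ η : G →* ℂ_[p]ˣ} {gt : G} {ℓs : Set (A →+ ℂ_[p])}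

/-- powers of the action -/
theorem extEnd_pow (H : Acts act χ η gt) (i : ℕ) (v : ℂ_[p] ⊗[ℤ] A) :
    (extEnd (act gt) ^ i) v = extEnd (act (gt ^ i)) v := by
  have hone : act 1 = AddMonoidHom.id A := H.fix 1 (map_one _) (map_one _)
  induction i with
  | zero => rw [pow_zero, pow_zero, hone, extEnd_id]; rfl
  | succ i ih =>
    rw [pow_succ', Module.End.mul_apply, ih, pow_succ', H.mul, extEnd_comp]

/-- The operator `∑ gt^i a^(q-1-i)`. -/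
noncomputable def SS (act : G → A →+ A) (gt : G) (a : ℂ_[p]) (q : ℕ) :
    (ℂ_[p] ⊗[ℤ] A) →ₗ[ℂ_[p]] (ℂ_[p] ⊗[ℤ] A) :=
  ∑ i ∈ Finset.range q, extEnd (act gt) ^ i * (algebraMap ℂ_[p] _ a) ^ (q - 1 - i)

theorem SS_mul (a : ℂ_[p]) (q : ℕ) :
    (extEnd (act gt) - algebraMap ℂ_[p] _ a) * SS act gt a q =
      extEnd (act gt) ^ q - (algebraMap ℂ_[p] (Module.End ℂ_[p] (ℂ_[p] ⊗[ℤ] A)) a) ^ q :=
  Commute.mul_geom_sum₂ (show Commute (extEnd (act gt))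
    (algebraMap ℂ_[p] (Module.End ℂ_[p] (ℂ_[p] ⊗[ℤ] A)) a) from (Algebra.commutes a _).symm) q

theorem SS_mul' (a : ℂ_[p]) (q : ℕ) :
    SS act gt a q * (extEnd (act gt) - algebraMap ℂ_[p] _ a) =
      extEnd (act gt) ^ q - (algebraMap ℂ_[p] (Module.End ℂ_[p] (ℂ_[p] ⊗[ℤ] A)) a) ^ q :=
  Commute.geom_sum₂_mul (show Commute (extEnd (act gt))
    (algebraMap ℂ_[p] (Module.End ℂ_[p] (ℂ_[p] ⊗[ℤ] A)) a) from (Algebra.commutes a _).symm) q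

theorem SS_mem (P : AddSubgroup (ℂ_[p] ⊗[ℤ] A)) (a : ℂ_[p]) (hP1 : ∀ v ∈ P, extEnd (act gt) v ∈ P)
    (hP2 : ∀ v ∈ P, a • v ∈ P) (q : ℕ) (v : ℂ_[p] ⊗[ℤ] A) (hv : v ∈ P) :
    SS act gt a q v ∈ P := by
  unfold SS
  rw [LinearMap.sum_apply]
  refine sum_mem fun i _ ↦ ?_
  rw [Module.End.mul_apply]
  have h1 : ∀ (n : ℕ) (v : ℂ_[p] ⊗[ℤ] A), v ∈ P →
      ((algebraMap ℂ_[p] (Module.End ℂ_[p] (ℂ_[p] ⊗[ℤ] A)) a) ^ n) v ∈ P := by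
    intro n
    induction n with
    | zero => intro v hv; exact hv
    | succ n ih =>
      intro v hv
      rw [pow_succ', Module.End.mul_apply, Module.algebraMap_end_apply]
      exact hP2 _ (ih v hv)
  have h2 : ∀ (n : ℕ) (v : ℂ_[p] ⊗[ℤ] A), v ∈ P → (extEnd (act gt) ^ n) v ∈ P := by
    intro n
    induction n with
    | zero => intro v hv; exact hv
    | succ n ih =>
      intro v hv
      rw [pow_succ', Module.End.mul_apply]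
      exact hP1 _ (ih v hv)
  exact h2 _ _ (h1 _ _ hv)

end

section

variable {p : ℕ} [Fact p.Prime] {A : Type} [AddCommGroup A] [Module.Finite ℤ A] {G : Type}
  [Group G] {act : G → A →+ A} {χ η : G →* ℂ_[p]ˣ} {gt : G} {ℓs : Set (A →+ ℂ_[p])}
  {O : Type} [CommRing O] [IsDomain O] [Algebra ℤ_[p] O] [Module.Finite ℤ_[p] O]
  (j : O →+* ℂ_[p])

theorem ins_main_u (hD : S_DET) (hC : S_COK) (h1 : S_TEN1) (h2 : S_TEN2) (h3 : S_CLS) (h4 : S_SPN)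
    (H : Acts act χ η gt) (hℓ : ∀ ℓ ∈ ℓs, ∀ g, ℓ.comp (act g) ∈ ℓs)
    (hj : Function.Injective j)
    (hjp : ∀ x : ℤ_[p], j (algebraMap ℤ_[p] O x) = algebraMap ℚ_[p] ℂ_[p] x) (c : G → O)
    (hc : ∀ g, j (c g) = ((χ g : ℂ_[p]ˣ) : ℂ_[p])) (u : G →* ℤ_[p]ˣ) (B C CG M q : ℕ)
    {ι : Type} [Fintype ι] (b : Basis ι ℤ_[p] O)
    (hcyc : ∃ ζ : A, ∀ (x : A) (n : ℕ), p ^ n • x = 0 → ∃ k : ℕ, x = k • ζ) (g₀ : G)
    (hg₀ : χ g₀ = 1)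
    (hgen : ∀ (s : Finset A), (∀ u ∈ s, ∃ w, act g₀ u - u = p • w) →
      (∀ u ∈ s, ∀ v ∈ s, (∃ w, u - v = p • w) → u = v) → s.card ≤ CG)
    (hη : ∀ h, η h = 1 → (p : ℤ_[p]) ^ M ∣ ((u h : ℤ_[p]ˣ) : ℤ_[p]) - 1)
    (hq : η (gt ^ q) = 1) (hu1 : (p : ℤ_[p]) ∣ ((u gt : ℤ_[p]ˣ) : ℤ_[p]) - 1) (w : ℤ_[p]ˣ)
    (hw : 1 - ((u gt : ℤ_[p]ˣ) : ℤ_[p]) ^ q = (p : ℤ_[p]) ^ M * w)
    (htor : ∃ a : ℕ, (∀ (x : A) (n : ℕ), p ^ n • x = 0 → act gt x = a • x) ∧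
      (c gt * algebraMap ℤ_[p] O (u gt : ℤ_[p]ˣ) - (a : O)) ∣ (p : O) ^ C)
    (hexp : ∀ (k : ℕ), k ≤ M → ∀ (z : O ⊗[ℤ] A), (∀ ℓ ∈ ℓs, extHom ℓ (tm j A z) = 0) →
      (∀ g, ∃ y : O ⊗[ℤ] A,
        exO O (act g) z - (c g * algebraMap ℤ_[p] O (u g : ℤ_[p]ˣ)) • z = p ^ k • y) →
      ∃ y : O ⊗[ℤ] A, p ^ B • z = p ^ k • y)
    (hrat : ∃ (n : ℕ) (f : Fin n → (A →+ ℚ_[p])),
      (∀ z : ℂ_[p] ⊗[ℤ] A, (∀ ℓ ∈ ℓs, extHom ℓ z = 0) →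
        ∀ i, extHom (((algebraMap ℚ_[p] ℂ_[p] : ℚ_[p] →+* ℂ_[p]) : ℚ_[p] →+ ℂ_[p]).comp (f i)) z
          = 0) ∧
      ∀ ℓ ∈ ℓs, ∃ c : Fin n → ℂ_[p], ∀ u, ℓ u = ∑ i, f i u • c i) :
    ∃ D : ℤ_[p][X], D.eval 0 = (p : ℤ_[p]) ^ ((B + C) * (p * CG) ^ Fintype.card ι) ∧
      ∀ (t : ℂ_[p]) (v : ℂ_[p] ⊗[ℤ] A), v ∈ Wsub act χ η ℓs → v ≠ 0 →
        extEnd (act gt) v - (((χ gt : ℂ_[p]ˣ) : ℂ_[p]) * zc p (u gt : ℤ_[p]ˣ)) • v = t • v →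
          D.eval₂ (zc p) t = 0 := by
  classical
  have hp0 : (p : ℂ_[p]) ≠ 0 := by exact_mod_cast (Fact.out : p.Prime).ne_zero
  let mV : Module ℤ_[p] (ℂ_[p] ⊗[ℤ] A) := Module.compHom _ (zc p)
  have hcompat : ∀ (r : ℤ_[p]) (v : ℂ_[p] ⊗[ℤ] A), r • v = zc p r • v := fun r v ↦ rfl
  have hjp' : ∀ x : ℤ_[p], j (algebraMap ℤ_[p] O x) = zc p x := hjp
  let L : (O ⊗[ℤ] A) →ₗ[ℤ_[p]] (ℂ_[p] ⊗[ℤ] A) :=
    { toFun := tm j A
      map_add' := map_add _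
      map_smul' := fun r z ↦ by
        rw [RingHom.id_apply, hcompat, ← hjp', ← tm_smul, algebraMap_smul] }
  have hL : ∀ z, L z = tm j A z := fun z ↦ rfl
  have hfin : Module.Finite ℤ_[p] (O ⊗[ℤ] A) := by
    have : Module.Finite O (O ⊗[ℤ] A) := inferInstance
    exact Module.Finite.trans O _
  have hfin' : Module.Finite ℤ_[p] (LinearMap.range L) := inferInstance
  have hΛ : ∀ v, v ∈ LinearMap.range L ↔ ∃ z, v = tm j A z := by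
    intro v
    rw [LinearMap.mem_range]
    exact ⟨fun ⟨z, hz⟩ ↦ ⟨z, hz.symm⟩, fun ⟨z, hz⟩ ↦ ⟨z, hz.symm⟩⟩
  set a : ℂ_[p] := ((χ gt : ℂ_[p]ˣ) : ℂ_[p]) * zc p (u gt : ℤ_[p]ˣ) with ha
  let T : (ℂ_[p] ⊗[ℤ] A) →ₗ[ℂ_[p]] (ℂ_[p] ⊗[ℤ] A) := extEnd (act gt) - a • LinearMap.id
  have hT : ∀ v, T v = extEnd (act gt) v - a • v := fun v ↦ rfl
  have hT' : T = extEnd (act gt) - algebraMap ℂ_[p] (Module.End ℂ_[p] (ℂ_[p] ⊗[ℤ] A)) a := by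
    ext v
    rfl
  have hsm : ∀ (k : ℕ) (v : ℂ_[p] ⊗[ℤ] A), (p ^ k : ℕ) • v = (p : ℂ_[p]) ^ k • v := by
    intro k v
    rw [← Nat.cast_smul_eq_nsmul ℂ_[p]]
    push_cast
    rfl
  have hja : j (c gt * algebraMap ℤ_[p] O (u gt : ℤ_[p]ˣ)) = a := by
    rw [map_mul, hc, hjp']
  -- closure properties
  have hΛG : ∀ v ∈ LinearMap.range L, extEnd (act gt) v ∈ LinearMap.range L := by
    intro v hv
    obtain ⟨z, rfl⟩ := (hΛ v).1 hv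
    exact (hΛ _).2 ⟨exO O (act gt) z, (tm_exO _ _ _).symm⟩
  have hΛj : ∀ (o : O), ∀ v ∈ LinearMap.range L, j o • v ∈ LinearMap.range L := by
    intro o v hv
    obtain ⟨z, rfl⟩ := (hΛ v).1 hv
    exact (hΛ _).2 ⟨o • z, (tm_smul _ _ _).symm⟩
  have hWG : ∀ v ∈ Wsub act χ η ℓs, extEnd (act gt) v ∈ Wsub act χ η ℓs :=
    fun v hv ↦ H.W_ext hℓ gt hv
  -- the relation on `W`
  set r : ℂ_[p] := ((χ gt : ℂ_[p]ˣ) : ℂ_[p]) ^ q * zc p w with hr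
  have hr0 : r ≠ 0 := by
    refine mul_ne_zero (pow_ne_zero _ (Units.ne_zero _)) ?_
    rw [Ne, map_eq_zero_iff _ zc_injective]
    exact Units.ne_zero w
  have hrel : ∀ v ∈ Wsub act χ η ℓs, (((extEnd (act gt)) ^ q -
      (algebraMap ℂ_[p] (Module.End ℂ_[p] (ℂ_[p] ⊗[ℤ] A)) a) ^ q :
        Module.End ℂ_[p] (ℂ_[p] ⊗[ℤ] A))) v = r • ((p : ℂ_[p]) ^ M • v) := by
    intro v hv
    rw [LinearMap.sub_apply, extEnd_pow H, hv.2 _ hq, ← map_pow, Module.algebraMap_end_apply,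
      map_pow, Units.val_pow_eq_pow_val, ← sub_smul, smul_smul]
    congr 1
    have h5 : zc p (1 - ((u gt : ℤ_[p]ˣ) : ℤ_[p]) ^ q) = zc p ((p : ℤ_[p]) ^ M * w) := by rw [hw]
    rw [map_sub, map_one, map_pow, map_mul, map_pow, map_natCast] at h5
    rw [ha, hr, mul_pow]
    linear_combination ((χ gt : ℂ_[p]ˣ) : ℂ_[p]) ^ q * h5
  -- the inverse of `T` up to `p^M`
  set Y : (ℂ_[p] ⊗[ℤ] A) → (ℂ_[p] ⊗[ℤ] A) := fun v ↦ r⁻¹ • SS act gt a q v with hY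
  have hTY : ∀ v ∈ Wsub act χ η ℓs, T (Y v) = (p ^ M : ℕ) • v := by
    intro v hv
    have h5 := hrel v hv
    rw [← SS_mul, ← hT', Module.End.mul_apply] at h5
    rw [hY]
    simp only
    rw [map_smul, h5, smul_smul, inv_mul_cancel₀ hr0, one_smul, hsm]
  have hYW : ∀ v ∈ Wsub act χ η ℓs, Y v ∈ Wsub act χ η ℓs := by
    intro v hv
    refine Submodule.smul_mem _ _ ?_
    exact SS_mem (Wsub act χ η ℓs).toAddSubgroup a hWG (fun v hv ↦ Submodule.smul_mem _ _ hv) q v hv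
  have hYΛ : ∀ v ∈ LinearMap.range L, Y v ∈ LinearMap.range L := by
    intro v hv
    have h5 : SS act gt a q v ∈ LinearMap.range L :=
      SS_mem (LinearMap.range L).toAddSubgroup a hΛG (fun v hv ↦ by
        rw [← hja]; exact hΛj _ v hv) q v hv
    have h6 : r⁻¹ = j (c (gt⁻¹) ^ q * algebraMap ℤ_[p] O ((w⁻¹ : ℤ_[p]ˣ) : ℤ_[p])) := by
      rw [map_mul, map_pow, hc, hjp', hr, mul_inv, map_inv, Units.val_inv_eq_inv_val, inv_pow]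
      congr 1
      rw [inv_eq_of_mul_eq_one_right]
      rw [← map_mul, Units.mul_inv, map_one]
    rw [hY]
    simp only
    rw [h6]
    exact hΛj _ _ h5
  have hTinj : ∀ v ∈ Wsub act χ η ℓs, T v = 0 → v = 0 := by
    intro v hv hv0
    have h5 := hrel v hv
    rw [← SS_mul', ← hT', Module.End.mul_apply, hv0, map_zero] at h5
    have h6 := h5.symm
    rw [smul_smul, smul_eq_zero] at h6
    exact h6.resolve_left (mul_ne_zero hr0 (pow_ne_zero _ hp0))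
  have hbM : ∀ k ≤ M, ∀ (y v : ℂ_[p] ⊗[ℤ] A), y ∈ LinearMap.range L → y ∈ Wsub act χ η ℓs →
      v ∈ LinearMap.range L → v ∈ Wsub act χ η ℓs → T y = p ^ k • v →
      ∃ y3 ∈ LinearMap.range L, p ^ (B + C) • y = p ^ k • y3 := by
    intro k hk y v hy hyW hv hvW hTy
    obtain ⟨yh, rfl⟩ := (hΛ y).1 hy
    obtain ⟨vh, rfl⟩ := (hΛ v).1 hv
    obtain ⟨y3, hy3⟩ := ins_b_u j c u H hℓ h1 hj hjp hc B C M hη htor hexp k hk yh vh hyW hTy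
    exact ⟨_, (hΛ _).2 ⟨y3, rfl⟩, hy3⟩
  obtain ⟨D, hD0, hDr⟩ := abs_main hD hC (ℂ_[p] ⊗[ℤ] A) hcompat (LinearMap.range L) T
    (Wsub act χ η ℓs) (fun v hv ↦ by
      rw [hT]
      exact sub_mem (hWG v hv) (Submodule.smul_mem _ _ hv)) (fun v hv ↦ by
      rw [hT]
      refine sub_mem (hΛG v hv) ?_
      rw [← hja]
      exact hΛj _ v hv) hTinj (fun v hv ↦ by
      have := ins_span (O := O) j c h4 hj hjp hc hrat v hv
      refine Submodule.span_mono ?_ this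
      rintro w ⟨hw1, hw2⟩
      exact ⟨(hΛ w).2 hw1, hw2⟩) (B + C) ((p * CG) ^ Fintype.card ι) (fun k y v hy hyW hv hvW hTy ↦ by
      rcases le_or_gt k M with hk | hk
      · exact hbM k hk y v hy hyW hv hvW hTy
      · obtain ⟨l, rfl⟩ := Nat.exists_eq_add_of_le hk.le
        obtain ⟨y3, hy3, hy3'⟩ := hbM M le_rfl (Y v) v (hYΛ v hv) (hYW v hvW) hv hvW (hTY v hvW)
        have h6 : y = p ^ l • Y v := by
          have h7 : T (y - p ^ l • Y v) = 0 := by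
            rw [map_sub, map_nsmul, hTY v hvW, hTy, smul_smul, ← pow_add, add_comm l M, sub_self]
          have h8 := hTinj _ (sub_mem hyW (Submodule.smul_of_tower_mem _ (p ^ l) (hYW v hvW))) h7
          exact sub_eq_zero.1 h8
        refine ⟨y3, hy3, ?_⟩
        rw [h6, smul_comm, hy3', smul_smul, ← pow_add, add_comm l M]) (fun s hs1 hs2 ↦
      ins_a (ℓs := ℓs) j H h1 h2 h3 hj c hc CG b hcyc g₀ hg₀ hgen s (fun v hv ↦ by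
        obtain ⟨h5, h6, w', h7, h8, h9⟩ := hs1 v hv
        obtain ⟨s', hs'⟩ := hu1
        refine ⟨(hΛ v).1 h5, h6, w' + (((χ gt : ℂ_[p]ˣ) : ℂ_[p]) * zc p s') • v, ?_, ?_, ?_⟩
        · have h10 : ((χ gt : ℂ_[p]ˣ) : ℂ_[p]) * zc p s' = j (c gt * algebraMap ℤ_[p] O s') := by
            rw [map_mul, hc, hjp']
          rw [h10]
          exact (hΛ _).1 (add_mem h7 (hΛj _ _ h5))
        · exact add_mem h8 (Submodule.smul_mem _ _ h6)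
        · rw [hT] at h9
          have h10 : extEnd (act gt) v = a • v + p • w' := by rw [← h9]; abel
          have h11 : zc p ((u gt : ℤ_[p]ˣ) : ℤ_[p]) = 1 + (p : ℂ_[p]) * zc p s' := by
            have h12 : ((u gt : ℤ_[p]ˣ) : ℤ_[p]) = 1 + (p : ℤ_[p]) * s' := by rw [← hs']; ring
            rw [h12, map_add, map_one, map_mul, map_natCast]
          rw [h10, ha, h11, smul_add, ← Nat.cast_smul_eq_nsmul ℂ_[p] p ((((χ gt : ℂ_[p]ˣ) :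
            ℂ_[p]) * zc p s') • v), smul_smul, mul_add, mul_one, add_smul,
            show ((χ gt : ℂ_[p]ˣ) : ℂ_[p]) * ((p : ℂ_[p]) * zc p s') =
              (p : ℂ_[p]) * (((χ gt : ℂ_[p]ˣ) : ℂ_[p]) * zc p s') by ring]
          abel) (fun u hu v hv ⟨w, h7, h8, h9⟩ ↦
        hs2 u hu v hv ⟨w, (hΛ w).2 h7, h8, h9⟩))
  exact ⟨D, hD0, fun t v hv hv0 htv ↦ hDr t v hv hv0 htv⟩

end

end Pool.Agent.Helper17.SDX
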