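import Pool.Agent.Helper17.SDX.PRE
import Pool.Agent.Helper17.SDX.MAINu
import Pool.Agent.Helper17.SDX.CNTu
import Pool.Agent.Helper17.TH.DICHA
import Pool.Agent.Helper32.TH.DUNR

/-!
# Project SD, part X: the machine, `S_TEXP → S_DUAL`
-/

set_option autoImplicit false

namespace Pool.Agent.Helper17.SDX

open NumberField Module IsDedekindDomain TensorProduct Polynomial
open Pool.Agent.Helper51.SigLeo Pool.Agent.Helper51.RP Pool.Agent.Helper42.RD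
open Pool.Agent.Helper38.FD (Chr CutsOut LeopoldtFor)
open Pool.Agent.Helper38.FW (InDec)
open Pool.Agent.Helper38.TH (IsTower Hat Unr RamD)
open Pool.Agent.Helper17.TH
open Pool.Agent.Helper16.SD (SplitP cyc Cyc Base Coef CutF S_TEXP)

variable {p : ℕ} [Fact p.Prime] {K : Type} [Field K] [NumberField K]

omit [NumberField K] in
/-- the coefficient ring -/
theorem exists_coef (χ ν : Chr K (AlgebraicClosure K) ℂ_[p]) (d : ℕ) (hd : 0 < d)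
    (hχ : χ ^ d = 1) (hν : ν ^ d = 1) :
    ∃ (O : Type) (_ : CommRing O) (_ : IsDomain O) (_ : Algebra ℤ_[p] O)
      (_ : Module.Finite ℤ_[p] O) (_ : Module.Free ℤ_[p] O) (j : O →+* ℂ_[p])
      (c cn : (AlgebraicClosure K ≃ₐ[K] AlgebraicClosure K) → O), Coef χ ν O j c cn := by
  obtain ⟨O, i1, i2, i3, i4, i5, j, hj, hjp, c, hc⟩ := exists_ring (χ.coprod ν) d hd (by
    ext ⟨g, h⟩
    rw [MonoidHom.pow_apply, MonoidHom.coprod_apply, mul_pow, ← MonoidHom.pow_apply,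
      ← MonoidHom.pow_apply, hχ, hν]
    simp)
  refine ⟨O, i1, i2, i3, i4, i5, j, fun g ↦ c (g, 1), fun g ↦ c (1, g), ⟨hj, hjp, fun g ↦ ?_,
    fun g ↦ ?_⟩⟩
  · rw [hc, MonoidHom.coprod_apply]
    simp
  · rw [hc, MonoidHom.coprod_apply]
    simp

/-- the torsion -/
theorem tor_u {O : Type} [CommRing O] [IsDomain O] [Algebra ℤ_[p] O] [Module.Finite ℤ_[p] O]
    (F : ℕ → IntermediateField K (AlgebraicClosure K)) [∀ m, NumberField (F m)]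
    [∀ m, IsGalois K (F m)] (g : AlgebraicClosure K ≃ₐ[K] AlgebraicClosure K) (om u : ℤ_[p]ˣ)
    (hcy : cyc p g = om * u) (x : O) (hx : x - algebraMap ℤ_[p] O (om : ℤ_[p]) ≠ 0) :
    ∃ C : ℕ, ∀ m, ∃ a : ℕ,
      (∀ (x : Additive (𝓞 (F m))ˣ) (n : ℕ), p ^ n • x = 0 → ug (F m) g x = a • x) ∧
      (x * algebraMap ℤ_[p] O (u : ℤ_[p]) - (a : O)) ∣ (p : O) ^ C := by
  obtain ⟨C, e, he⟩ := dvd_pow_p (p := p) _ hx
  refine ⟨C, fun m ↦ ?_⟩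
  obtain ⟨n, a, hn, ha, s, hs⟩ := tor_act (p := p) (F m) g C
  refine ⟨a, ha, ?_⟩
  set δ := x - algebraMap ℤ_[p] O (om : ℤ_[p]) with hδ
  obtain ⟨l, rfl⟩ : ∃ l, n = C + (l + 1) := ⟨n - C - 1, by omega⟩
  have h1 : x * algebraMap ℤ_[p] O (u : ℤ_[p]) - (a : O) =
      δ * (algebraMap ℤ_[p] O (u : ℤ_[p]) + (p : O) * (e * (p : O) ^ l * algebraMap ℤ_[p] O s)) := by
    have h2 : (a : ℤ_[p]) = om * u - (p : ℤ_[p]) ^ (C + (l + 1)) * s := by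
      rw [← hs, hcy, Units.val_mul]
      ring
    have h3 : (a : O) = algebraMap ℤ_[p] O (a : ℤ_[p]) := by rw [map_natCast]
    rw [h3, h2, map_sub, map_mul, map_mul, map_pow, map_natCast, pow_add, he, hδ]
    ring
  have h4 : IsUnit (algebraMap ℤ_[p] O (u : ℤ_[p]) +
      (p : O) * (e * (p : O) ^ l * algebraMap ℤ_[p] O s)) :=
    unit_add _ _ (u.isUnit.map _)
  rw [h1]
  exact (h4.mul_right_dvd).2 ⟨e, he⟩

theorem s_dual_of (hT : S_TEXP) : Pool.Agent.Helper16.SD.S_DUAL := by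
  classical
  intro p hp hp2 K _ _ _ hspl ιinf ιp Lg η om u hcyc χ ν F _ _ B hB S hS
  -- finite orders
  have hfχ : ∀ g : AlgebraicClosure K ≃ₐ[K] AlgebraicClosure K, (∀ x ∈ F, g x = x) → χ g = 1 :=
    fun g hg ↦ ((hB.cutF g).1 hg).1
  have hfν : ∀ g : AlgebraicClosure K ≃ₐ[K] AlgebraicClosure K, (∀ x ∈ F, g x = x) → ν g = 1 := by
    intro g hg
    have h1 := hB.mul g
    obtain ⟨h2, h3⟩ := (hB.cutF g).1 hg
    rw [h2, h3, Units.val_one, Units.val_one, map_one, one_mul] at h1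
    exact Units.ext h1
  obtain ⟨E, hEf, hE⟩ := exists_cut χ F hfχ
  obtain ⟨E', hEf', hE'⟩ := exists_cut ν F hfν
  obtain ⟨d₁, hd₁, hχ₁⟩ := finite_order hE
  obtain ⟨d₂, hd₂, hν₂⟩ := finite_order hE'
  set d := d₁ * d₂ with hd
  have hd0 : 0 < d := Nat.mul_pos hd₁ hd₂
  have hχ : χ ^ d = 1 := by
    ext g
    have h1 := DFunLike.congr_fun hχ₁ g
    rw [MonoidHom.pow_apply] at h1 ⊢
    rw [hd, pow_mul, h1, MonoidHom.one_apply, one_pow]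
  have hν : ν ^ d = 1 := by
    ext g
    have h1 := DFunLike.congr_fun hν₂ g
    rw [MonoidHom.pow_apply] at h1 ⊢
    rw [hd, mul_comm, pow_mul, h1, MonoidHom.one_apply, one_pow]
  obtain ⟨O, _, _, _, _, _, j, c, cn, hco⟩ := exists_coef χ ν d hd0 hχ hν
  -- the tower
  have hη := hcyc.tower
  have hunr : Unr η := Pool.Agent.Helper32.TH.d_unr p K η hη
  have hram : RamD χ η := fun τ _ ↦ hB.dec τ
  obtain ⟨Fm, _, _, g₀, hTw⟩ := exists_tw Pool.Agent.Helper80.TH.s_unr Pool.Agent.Helper80.TH.s_spl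
    χ η hη hunr hram E hE
  -- the element
  have hνne : ν ≠ 1 := by
    obtain ⟨g, -, hg⟩ := hB.dec' ιp
    intro h
    rw [h] at hg
    exact hg rfl
  obtain ⟨gt, hgt, hgν⟩ := exists_both (η 1) ν hη.one_ne hνne
  have hδ : c gt - algebraMap ℤ_[p] O ((om gt : ℤ_[p]ˣ) : ℤ_[p]) ≠ 0 := by
    intro h
    apply hgν
    have h1 := congrArg j h
    rw [map_sub, hco.c, hco.alg, map_zero, sub_eq_zero] at h1
    have h2 := hB.mul gt
    have h3 : ((χ gt : ℂ_[p]ˣ) : ℂ_[p]) * (ν gt : ℂ_[p]ˣ) = ((χ gt : ℂ_[p]ˣ) : ℂ_[p]) * 1 := by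
      rw [h2, mul_one, h1]
      rfl
    exact Units.ext (mul_left_cancel₀ (Units.ne_zero _) h3)
  obtain ⟨C, hC⟩ := tor_u Fm gt (om gt) (u gt) (hcyc.mul gt) (c gt) hδ
  obtain ⟨CG, hCG⟩ := Pool.Agent.Helper31.TH.s_gen p K χ η Fm g₀ hTw
  obtain ⟨b, hb⟩ := hT p hp2 K hspl Lg η om u hcyc χ ν F B hB O j c cn hco Fm hTw.cut
  have hu1 : (p : ℤ_[p]) ∣ ((u gt : ℤ_[p]ˣ) : ℤ_[p]) - 1 := hcyc.u_one gt
  have hu2 : ¬ (p : ℤ_[p]) ^ 2 ∣ ((u gt : ℤ_[p]ˣ) : ℤ_[p]) - 1 := by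
    intro h
    exact hgt ((hcyc.cut 1 gt).2 h)
  set N := (b + C) * (p * CG) ^ Fintype.card (Module.Free.ChooseBasisIndex ℤ_[p] O) with hN
  -- the polynomials
  have hmain : ∀ m, ∃ D : ℤ_[p][X], D.eval 0 = (p : ℤ_[p]) ^ N ∧
      ∀ θ : Chr K (AlgebraicClosure K) ℂ_[p], (∀ g, η m g = 1 → θ g = 1) →
        ¬ LeopoldtFor ιinf ιp Lg S (χ * θ) →
        D.eval₂ (zc p) (((χ gt : ℂ_[p]ˣ) : ℂ_[p]) * (((θ gt : ℂ_[p]ˣ) : ℂ_[p]) -
          zc p (u gt : ℤ_[p]ˣ))) = 0 := by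
    intro m
    set ℓs : Set (Additive (𝓞 (Fm m))ˣ →+ ℂ_[p]) :=
      {ℓ | ∃ τ ∈ (above Bᶜ : Set (Fm m →+* ℂ_[p])), ℓ = logUnits Lg τ} with hℓs
    have hH : Acts (p := p) (ug (Fm m)) χ (η m) gt := by
      refine ⟨ug_mul (Fm m), fun g hg1 hg2 ↦ ug_fix (Fm m) g ((hTw.cut m g).2 ⟨hg1, hg2⟩),
        fun g ↦ ?_⟩
      refine tow_gen hTw.succ gt g 0 hgt ?_ ?_ m
      · rw [hTw.zero]; rfl
      · rw [hTw.zero]; rfl
    have hℓ : ∀ ℓ ∈ ℓs, ∀ g, ℓ.comp (ug (Fm m) g) ∈ ℓs := by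
      rintro ℓ ⟨τ, hτ, rfl⟩ g
      exact ⟨_, above_comp (Fm m) (AlgEquiv.restrictNormalHom (Fm m) g) hτ, rfl⟩
    have hlin : ∀ v : ℂ_[p] ⊗[ℤ] Additive (𝓞 (Fm m))ˣ, (∀ ℓ ∈ ℓs, extHom ℓ v = 0) ↔
        ∀ τ ∈ (above Bᶜ : Set (Fm m →+* ℂ_[p])), extHom (logUnits Lg τ) v = 0 := by
      intro v
      exact ⟨fun h τ hτ ↦ h _ ⟨τ, hτ, rfl⟩, fun h ℓ ⟨τ, hτ, hℓτ⟩ ↦ by rw [hℓτ]; exact h τ hτ⟩
    have hne : Nonempty (AlgebraicClosure ℚ →+* ℂ_[p]) :=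
      Pool.Agent.Helper30.PW.nonempty_hom ℚ ℂ_[p]
    obtain ⟨n, f, hf1, hf2⟩ := Pool.Agent.Helper94.RP.s_rat p ℂ_[p] hne Lg (Fm m)
      (above Bᶜ) (closed_above (Fm m) (closed_split hspl Bᶜ))
    obtain ⟨w, hw⟩ := u_pow hp2 ((u gt : ℤ_[p]ˣ) : ℤ_[p]) hu1 hu2 m
    obtain ⟨D, hD0, hDr⟩ := ins_main_u (act := ug (Fm m)) (χ := χ) (η := η m) (gt := gt)
      (ℓs := ℓs) j s_det Pool.Agent.Helper12.TH.s_cok Pool.Agent.Helper57.TH.s_ten1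
      Pool.Agent.Helper59.TH.s_ten2 Pool.Agent.Helper57.TH.s_cls Pool.Agent.Helper18.TH.s_spn
      hH hℓ hco.inj hco.alg c hco.c u b C CG (m + 1) (p ^ m) (Module.Free.chooseBasis ℤ_[p] O)
      (tors_cyc p (Fm m)) g₀ hTw.g₀χ (hCG m) (fun h hh ↦ (hcyc.cut m h).1 hh) (by
        rw [map_pow]; exact tow_one hTw.zero hTw.succ m gt) hu1 w hw (hC m)
      (fun k hk z hz hz2 ↦ hb m k hk z ((hlin _).1 hz) hz2) ⟨n, f, fun z hz ↦ hf1 z ((hlin z).1 hz),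
        fun ℓ ⟨τ, hτ, hℓτ⟩ ↦ by rw [hℓτ]; exact hf2 τ hτ⟩
    refine ⟨D, hD0, fun θ hθ hnot ↦ ?_⟩
    rw [Pool.Agent.Helper16.TH.s_inf p K ιinf ιp Lg S (Fm m) (χ * θ) (fun g hg ↦ by
      have h5 := (hTw.cut m g).1 hg
      rw [MonoidHom.mul_apply, h5.1, hθ g h5.2, mul_one])] at hnot
    push Not at hnot
    obtain ⟨v, hv1, hv2, hv0⟩ := hnot
    refine hDr _ v ⟨(hlin v).2 fun τ hτ ↦ hv2 τ (hS _ hτ), fun h hh ↦ ?_⟩ hv0 ?_
    · rw [hv1, MonoidHom.mul_apply, hθ h hh, mul_one]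
    · rw [hv1, MonoidHom.mul_apply, Units.val_mul, ← sub_smul, mul_sub]
  -- the bad levels
  set Lv : Set ℕ := {n | 1 ≤ n ∧ ∃ b : ℕ, ¬ p ∣ b ∧ ¬ LeopoldtFor ιinf ιp Lg S (χ * η n ^ b)}
    with hLv
  have hLvfin : Lv.Finite := by
    by_contra hinf
    obtain ⟨s, hs1, hs2⟩ := Set.Infinite.exists_subset_card_eq hinf (N + 1)
    obtain ⟨D, hD0, hDr⟩ := hmain (s.sup id)
    have := cnt_u hp2 hu1 ((χ gt : ℂ_[p]ˣ) : ℂ_[p]) d hd0 (by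
      have h5 := congrArg (fun f : Chr K (AlgebraicClosure K) ℂ_[p] ↦
        ((f gt : ℂ_[p]ˣ) : ℂ_[p])) hχ
      simpa using h5) N D hD0 s (fun n hn ↦ by
      obtain ⟨hn1, b, hb, hbad⟩ := hs1 hn
      have hle : n ≤ s.sup id := Finset.le_sup (f := id) hn
      obtain ⟨k, hk⟩ := Nat.exists_eq_add_of_le hle
      refine ⟨hn1, (((η n ^ b) gt : ℂ_[p]ˣ) : ℂ_[p]), ?_, hDr (η n ^ b) (fun g hg ↦ ?_) hbad⟩
      · rw [MonoidHom.pow_apply, Units.val_pow_eq_pow_val]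
        refine (tow_prim hη.zero hη.pow gt hgt n hn1).pow_of_coprime b ?_
        exact Nat.Coprime.pow_right n ((Nat.Prime.coprime_iff_not_dvd hp.out).2 hb).symm
      · rw [MonoidHom.pow_apply, ← tow_pow hη.pow n k g, ← hk, hg, one_pow, one_pow])
    omega
  refine Set.Finite.subset (s := {1} ∪ ⋃ n ∈ Lv, (fun b : ℕ ↦ η n ^ b) '' Set.Iio (p ^ n)) ?_ ?_
  · refine (Set.finite_singleton _).union (hLvfin.biUnion fun n _ ↦ ?_)
    exact (Set.finite_Iio _).image _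
  · rintro ξ ⟨hξ, hbad⟩
    rcases hat_cases hη.zero hη.pow ξ hξ with rfl | ⟨n, b, hn, hb, rfl⟩
    · exact Or.inl rfl
    · right
      refine Set.mem_biUnion (show n ∈ Lv from ⟨hn, b, hb, hbad⟩) ⟨b % p ^ n,
        Nat.mod_lt _ (pow_pos hp.out.pos _), ?_⟩
      ext g
      simp only [MonoidHom.pow_apply]
      congr 1
      exact (pow_eq_pow_mod b (tow_one hη.zero hη.pow n g)).symm

/-- **Part X** -/
theorem s_dual : S_TEXP → Pool.Agent.Helper16.SD.S_DUAL := s_dual_of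

end Pool.Agent.Helper17.SDX
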