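import Pool.Agent.Helper17.TH.INS4

/-!
# Project SD, part X: the abstract statement, twisted by a character with values in `1 + p ℤ_p`
-/

set_option autoImplicit false

namespace Pool.Agent.Helper17.SDX

open Module TensorProduct Polynomial
open Pool.Agent.Helper51.SigLeo Pool.Agent.Helper17.TH

section pow

variable {A : Type} [AddCommGroup A] {G : Type} [Group G] {act : G → A →+ A}
  {O : Type} [CommRing O] (e : G → O)

/-- Congruences for the powers of `gt` -/
theorem powE (hmul : ∀ g h, act (g * h) = (act g).comp (act h)) (hone : act 1 = AddMonoidHom.id A)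
    (he1 : e 1 = 1) (hem : ∀ g h, e (g * h) = e g * e h) (gt : G) (q : ℕ) (z y : O ⊗[ℤ] A)
    (h : exO O (act gt) z - e gt • z = q • y) (i : ℕ) :
    ∃ y', exO O (act (gt ^ i)) z - e (gt ^ i) • z = q • y' := by
  induction i with
  | zero =>
    refine ⟨0, ?_⟩
    rw [pow_zero, he1, hone, exO_id, one_smul, sub_self, smul_zero]
  | succ i ih =>
    obtain ⟨y', hy'⟩ := ih
    refine ⟨exO O (act gt) y' + e (gt ^ i) • y, ?_⟩
    have e1 : exO O (act (gt ^ i)) z = e (gt ^ i) • z + q • y' := by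
      rw [← hy']; abel
    have e2 : exO O (act gt) z = e gt • z + q • y := by
      rw [← h]; abel
    rw [pow_succ', hmul, exO_comp, e1, map_add, map_smul, e2, hem, map_nsmul,
      smul_add, smul_smul, mul_comm (e (gt ^ i)), smul_add, smul_comm (e (gt ^ i)) q y]
    abel

end pow

section

variable {p : ℕ} [Fact p.Prime] {A : Type} [AddCommGroup A] [Module.Finite ℤ A] {G : Type}
  [Group G] {act : G → A →+ A} {χ η : G →* ℂ_[p]ˣ} {gt : G} {ℓs : Set (A →+ ℂ_[p])}
  {O : Type} [CommRing O] [IsDomain O] [Algebra ℤ_[p] O] (j : O →+* ℂ_[p]) (c : G → O)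
  (u : G →* ℤ_[p]ˣ)

/-- the bound for the exponent -/
theorem ins_b_u (H : Acts act χ η gt) (hℓ : ∀ ℓ ∈ ℓs, ∀ g, ℓ.comp (act g) ∈ ℓs)
    (h1 : S_TEN1) (hj : Function.Injective j)
    (hjp : ∀ x : ℤ_[p], j (algebraMap ℤ_[p] O x) = algebraMap ℚ_[p] ℂ_[p] x)
    (hc : ∀ g, j (c g) = ((χ g : ℂ_[p]ˣ) : ℂ_[p])) (B C M : ℕ)
    (hη : ∀ h, η h = 1 → (p : ℤ_[p]) ^ M ∣ ((u h : ℤ_[p]ˣ) : ℤ_[p]) - 1)
    (htor : ∃ a : ℕ, (∀ (x : A) (n : ℕ), p ^ n • x = 0 → act gt x = a • x) ∧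
      (c gt * algebraMap ℤ_[p] O (u gt : ℤ_[p]ˣ) - (a : O)) ∣ (p : O) ^ C)
    (hexp : ∀ (k : ℕ), k ≤ M → ∀ (z : O ⊗[ℤ] A), (∀ ℓ ∈ ℓs, extHom ℓ (tm j A z) = 0) →
      (∀ g, ∃ y : O ⊗[ℤ] A,
        exO O (act g) z - (c g * algebraMap ℤ_[p] O (u g : ℤ_[p]ˣ)) • z = p ^ k • y) →
      ∃ y : O ⊗[ℤ] A, p ^ B • z = p ^ k • y)
    (k : ℕ) (hk : k ≤ M) (yh vh : O ⊗[ℤ] A) (hy : tm j A yh ∈ Wsub act χ η ℓs)
    (hT : extEnd (act gt) (tm j A yh) -
      (((χ gt : ℂ_[p]ˣ) : ℂ_[p]) * zc p (u gt : ℤ_[p]ˣ)) • tm j A yh = p ^ k • tm j A vh) :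
    ∃ y3 : O ⊗[ℤ] A, p ^ (B + C) • tm j A yh = p ^ k • tm j A y3 := by
  obtain ⟨a, ha, e, he⟩ := htor
  -- the operator `U = gt - a` kills the torsion
  have hU : ∀ z : O ⊗[ℤ] A, tm j A z = 0 → exO O (act gt) z = (a : O) • z := by
    intro z hz
    refine AddSubgroup.closure_induction (p := fun z _ ↦ exO O (act gt) z = (a : O) • z) ?_ ?_ ?_ ?_
      (h1 p O j hj A z hz)
    · rintro x ⟨o, x, n, hx, rfl⟩
      rw [exO_tmul, ha x n hx, Nat.cast_smul_eq_nsmul, TensorProduct.tmul_smul]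
    · rw [map_zero, smul_zero]
    · intro x y _ _ hx hy
      rw [map_add, hx, hy, smul_add]
    · intro x _ hx
      rw [map_neg, hx, smul_neg]
  set ee : G → O := fun g ↦ c g * algebraMap ℤ_[p] O (u g : ℤ_[p]ˣ) with hee
  have hje : ∀ g, j (ee g) = ((χ g : ℂ_[p]ˣ) : ℂ_[p]) * zc p (u g : ℤ_[p]ˣ) := by
    intro g
    rw [hee]
    simp only
    rw [map_mul, hc, hjp]
    rfl
  have hem : ∀ g h, ee (g * h) = ee g * ee h := by
    intro g h
    rw [hee]
    simp only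
    rw [c_mul j c hj hc, map_mul, Units.val_mul, map_mul]
    ring
  have he1 : ee 1 = 1 := by
    apply hj
    rw [hje, map_one, map_one, Units.val_one, Units.val_one, map_one, map_one, mul_one]
  have hone : act 1 = AddMonoidHom.id A := H.fix 1 (map_one _) (map_one _)
  replace he : (p : O) ^ C = (ee gt - (a : O)) * e := he
  set zh : O ⊗[ℤ] A := exO O (act gt) yh - (a : O) • yh with hzh
  have htm : ∀ (n : ℕ) (z : O ⊗[ℤ] A), tm j A (n • z) = n • tm j A z := fun n z ↦ map_nsmul _ _ _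
  -- `T z ≡ 0`
  have hcomm : ∀ (g : G) (x : O ⊗[ℤ] A),
      exO O (act g) (exO O (act gt) x) = exO O (act gt) (exO O (act g) x) := by
    intro g x
    rw [← exO_comp, ← exO_comp, ← H.mul, ← H.mul, H.comm]
  have e1 : exO O (act gt) zh - ee gt • zh =
      p ^ k • (exO O (act gt) vh - (a : O) • vh) := by
    have h2 := hU (exO O (act gt) yh - ee gt • yh - p ^ k • vh) (by
      rw [map_sub, map_sub, tm_exO, tm_smul, hje, hT, htm, sub_self])
    rw [map_sub, map_sub, map_smul, map_nsmul] at h2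
    have h3 : exO O (act gt) (exO O (act gt) yh) = ee gt • exO O (act gt) yh +
        p ^ k • exO O (act gt) vh + (a : O) • (exO O (act gt) yh - ee gt • yh - p ^ k • vh) := by
      rw [← h2]; abel
    rw [hzh, map_sub, map_smul, h3]
    simp only [smul_sub, smul_smul, mul_comm (a : O) (ee gt)]
    rw [smul_comm (p ^ k) (a : O) vh]
    abel
  have e2 : ∀ h, η h = 1 → exO O (act h) zh = c h • zh := by
    intro h hh
    have h2 := hU (exO O (act h) yh - c h • yh) (by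
      rw [map_sub, tm_exO, tm_smul, hc, hy.2 h hh, sub_self])
    rw [map_sub, map_smul] at h2
    have h3 : exO O (act gt) (exO O (act h) yh) = c h • exO O (act gt) yh +
      (a : O) • (exO O (act h) yh - c h • yh) := by
      rw [← h2]; abel
    rw [hzh, map_sub, map_smul, hcomm, h3]
    simp only [smul_sub, smul_smul, mul_comm (a : O) (c h)]
    abel
  obtain ⟨y1, hy1⟩ := hexp k hk zh (fun ℓ hl ↦ by
      rw [hzh, map_sub, tm_exO, tm_smul, map_sub, map_smul, extHom_comp, hy.1 ℓ hl,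
        hy.1 _ (hℓ ℓ hl gt), smul_zero, sub_self]) (fun g ↦ by
      obtain ⟨i, hi⟩ := H.gen g
      set h : G := (gt ^ i)⁻¹ * g with hh
      have hg : g = gt ^ i * h := by rw [hh, mul_inv_cancel_left]
      have hηh : η h = 1 := by rw [hh, map_mul, map_inv, map_pow, hi, inv_mul_cancel]
      obtain ⟨y', hy'⟩ := powE ee H.mul hone he1 hem gt _ zh _ e1 i
      obtain ⟨r, hr⟩ := (pow_dvd_pow (p : ℤ_[p]) hk).trans (hη h hηh)
      have h6 : algebraMap ℤ_[p] O (u h : ℤ_[p]ˣ) = 1 + (p ^ k : ℕ) * algebraMap ℤ_[p] O r := by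
        have h7 : ((u h : ℤ_[p]ˣ) : ℤ_[p]) = 1 + (p : ℤ_[p]) ^ k * r := by rw [← hr]; ring
        rw [h7, map_add, map_one, map_mul, map_pow, map_natCast]
        push_cast
        rfl
      refine ⟨c h • y' - (ee (gt ^ i) * c h * algebraMap ℤ_[p] O r) • zh, ?_⟩
      show exO O (act g) zh - ee g • zh = _
      have h8 : ee g = ee (gt ^ i) * c h + (p ^ k : ℕ) * (ee (gt ^ i) * c h * algebraMap ℤ_[p] O r) := by
        rw [hg, hem]
        show ee (gt ^ i) * (c h * algebraMap ℤ_[p] O (u h : ℤ_[p]ˣ)) = _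
        rw [h6]
        ring
      have h9 : exO O (act (gt ^ i)) zh = ee (gt ^ i) • zh + p ^ k • y' := by
        rw [← hy']; abel
      rw [h8, hg, H.mul, exO_comp, e2 h hηh, map_smul, h9, add_smul, smul_add, smul_smul,
        mul_comm (c h), mul_smul ((p ^ k : ℕ) : O), Nat.cast_smul_eq_nsmul,
        smul_comm (c h) (p ^ k) y', smul_sub (p ^ k) (c h • y')]
      abel)
  -- conclusion
  have e3 : ((p : O) ^ C) • yh = e • zh - e • (exO O (act gt) yh - ee gt • yh) := by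
    rw [he, hzh, ← smul_sub]
    rw [mul_comm, mul_smul]
    congr 1
    rw [sub_smul]
    abel
  refine ⟨e • y1 - e • (p ^ B • vh), ?_⟩
  have e4 : tm j A (e • (exO O (act gt) yh - ee gt • yh)) = tm j A (e • (p ^ k • vh)) := by
    rw [tm_smul, tm_smul, map_sub, tm_exO, tm_smul, hje, hT, htm]
  have e5 : p ^ (B + C) • tm j A yh = tm j A (p ^ B • (((p : O) ^ C) • yh)) := by
    rw [htm, tm_smul, map_pow, map_natCast, pow_add, mul_smul]
    congr 1
    rw [← Nat.cast_pow, Nat.cast_smul_eq_nsmul]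
  rw [e5, e3, smul_sub, map_sub, htm, htm, e4, ← htm, ← htm, ← htm, smul_comm (p ^ B) e zh, hy1,
    smul_sub, smul_comm (p ^ k) e y1, map_sub, smul_comm (p ^ B) e (p ^ k • vh),
    smul_comm (p ^ B) (p ^ k) vh, smul_comm (p ^ k) e (p ^ B • vh)]

end

end Pool.Agent.Helper17.SDX
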