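import Pool.Agent.Helper16.SD.Top
import Pool.Agent.Helper17.TH.DICH
import Pool.Agent.Helper65.TH.TOR
import Pool.Agent.Helper16.TH.INF
import Mathlib.NumberTheory.Multiplicity

/-!
# Project SD, part X: preliminaries
-/

set_option autoImplicit false

namespace Pool.Agent.Helper17.SDX

open NumberField Module IsDedekindDomain TensorProduct Polynomial
open Pool.Agent.Helper51.SigLeo Pool.Agent.Helper51.RP Pool.Agent.Helper42.RD
open Pool.Agent.Helper38.FD (Chr CutsOut LeopoldtFor)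
open Pool.Agent.Helper17.TH
open Pool.Agent.Helper16.SD (SplitP cyc Cyc)

section

variable {p : ℕ} [Fact p.Prime] {K : Type} [Field K] [NumberField K]

/-- the field of a character -/
theorem exists_cut (ψ : Chr K (AlgebraicClosure K) ℂ_[p])
    (F : IntermediateField K (AlgebraicClosure K)) [NumberField F]
    (hψF : ∀ g : AlgebraicClosure K ≃ₐ[K] AlgebraicClosure K, (∀ x ∈ F, g x = x) → ψ g = 1) :
    ∃ H : IntermediateField K (AlgebraicClosure K), FiniteDimensional K H ∧ CutsOut ψ H := by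
  have hKF : FiniteDimensional K F := FiniteDimensional.right ℚ K F
  have hle : F.fixingSubgroup ≤ ψ.ker := by
    intro g hg
    rw [MonoidHom.mem_ker]
    apply hψF
    intro x hx
    exact hg ⟨x, hx⟩
  have hopen : IsOpen (ψ.ker : Set (AlgebraicClosure K ≃ₐ[K] AlgebraicClosure K)) :=
    Subgroup.isOpen_mono hle F.fixingSubgroup_isOpen
  have hclosed : IsClosed (ψ.ker : Set (AlgebraicClosure K ≃ₐ[K] AlgebraicClosure K)) :=
    Subgroup.isClosed_of_isOpen _ hopen
  set H : IntermediateField K (AlgebraicClosure K) := IntermediateField.fixedField ψ.ker with hH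
  have hfix : H.fixingSubgroup = ψ.ker :=
    InfiniteGalois.fixingSubgroup_fixedField ⟨ψ.ker, hclosed⟩
  have hHF : H ≤ F := by
    have h1 := InfiniteGalois.fixedField_fixingSubgroup F
    rw [← h1]
    exact IntermediateField.fixedField_antitone hle
  have hcut : CutsOut ψ H := by
    intro g
    rw [← MonoidHom.mem_ker, ← hfix, IntermediateField.mem_fixingSubgroup_iff]
  let _ : Algebra H F := (IntermediateField.inclusion hHF).toRingHom.toAlgebra
  have : IsScalarTower K H F := IsScalarTower.of_algebraMap_eq (fun x => rfl)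
  exact ⟨H, FiniteDimensional.left K H F, hcut⟩

/-- if `p` splits completely, an embedding is determined by its absolute value -/
theorem closed_split (h : SplitP p K) (T : Set (K →+* ℂ_[p])) : PlaceClosed T := by
  intro σ τ hστ
  have : σ = τ := by
    ext x
    obtain ⟨y, hy⟩ := h σ x
    rw [← sub_eq_zero, ← norm_eq_zero]
    refine le_antisymm (le_of_forall_pos_le_add fun ε hε ↦ ?_) (norm_nonneg _)
    obtain ⟨r, hr⟩ := Padic.rat_dense p y (half_pos hε)
    have hq : ∀ ρ : K →+* ℂ_[p], ρ (r : K) = algebraMap ℚ_[p] ℂ_[p] (r : ℚ_[p]) := by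
      intro ρ
      rw [map_ratCast, map_ratCast]
    have h1 : ‖σ (x - (r : K))‖ < ε / 2 := by
      rw [map_sub, hy, hq, ← map_sub, norm_algebraMap']
      exact hr
    have h2 : ‖τ (x - (r : K))‖ < ε / 2 := by rw [← hστ]; exact h1
    have h3 : σ x - τ x = σ (x - (r : K)) - τ (x - (r : K)) := by
      rw [map_sub, map_sub, hq, hq]
      ring
    rw [h3]
    calc ‖σ (x - (r : K)) - τ (x - (r : K))‖ ≤ ‖σ (x - (r : K))‖ + ‖τ (x - (r : K))‖ :=
          norm_sub_le _ _
      _ ≤ ε / 2 + ε / 2 := add_le_add h1.le h2.le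
      _ = 0 + ε := by ring
  rw [this]

/-- two nontrivial characters are both nontrivial at some element -/
theorem exists_both {G A B : Type} [Group G] [Group A] [Group B] (f : G →* A) (g : G →* B)
    (hf : f ≠ 1) (hg : g ≠ 1) : ∃ x, f x ≠ 1 ∧ g x ≠ 1 := by
  by_contra hcon
  push Not at hcon
  obtain ⟨a, ha⟩ : ∃ a, f a ≠ 1 := by
    by_contra h2
    push Not at h2
    exact hf (MonoidHom.ext h2)
  obtain ⟨b, hb⟩ : ∃ b, g b ≠ 1 := by
    by_contra h2
    push Not at h2
    exact hg (MonoidHom.ext h2)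
  have h1 := hcon a ha
  have h2 : f b = 1 := by
    by_contra h
    exact hb (hcon b h)
  have h3 := hcon (a * b) (by rw [map_mul, h2, mul_one]; exact ha)
  rw [map_mul, h1, one_mul] at h3
  exact hb h3

omit [NumberField K] in
theorem cyc_eq (g : AlgebraicClosure K ≃ₐ[K] AlgebraicClosure K) :
    cyc p g = Pool.Agent.Helper65.TH.cyc p K g := rfl

/-- the action on the units of `p`-power order -/
theorem tor_act (F : IntermediateField K (AlgebraicClosure K)) [NumberField F] [IsGalois K F]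
    (g : AlgebraicClosure K ≃ₐ[K] AlgebraicClosure K) (v : ℕ) :
    ∃ n a : ℕ, v < n ∧ (∀ (x : Additive (𝓞 F)ˣ) (n : ℕ), p ^ n • x = 0 → ug F g x = a • x) ∧
      (p : ℤ_[p]) ^ n ∣ ((cyc p g : ℤ_[p]ˣ) : ℤ_[p]) - (a : ℤ_[p]) := by
  set W := Units.torsionOrder F with hW
  set n := W + v + 1 with hn
  set a := ((Pool.Agent.Helper65.TH.cyc p K g).val.toZModPow n).val with ha
  refine ⟨n, a, by omega, fun x k hx => ?_, ?_⟩
  · -- the units of `p`-power order
    have h1 : (x.toMul : (𝓞 F)ˣ) ^ p ^ k = 1 := by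
      have := congrArg Additive.toMul hx
      simpa using this
    have hmem : (x.toMul : (𝓞 F)ˣ) ∈ Units.torsion F := by
      rw [Units.torsion, CommGroup.mem_torsion, isOfFinOrder_iff_pow_eq_one]
      exact ⟨p ^ k, pow_pos (Fact.out : p.Prime).pos k, h1⟩
    have h2 : orderOf (x.toMul : (𝓞 F)ˣ) ∣ W := by
      have h3 : orderOf (⟨_, hmem⟩ : Units.torsion F) ∣ W := orderOf_dvd_natCard _
      rwa [← Subgroup.orderOf_coe] at h3
    have hWpos : 0 < W := Units.torsionOrder_pos F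
    have h4 : (x.toMul : (𝓞 F)ˣ) ^ p ^ n = 1 := by
      obtain ⟨i, hi, hi2⟩ := (Nat.dvd_prime_pow (Fact.out : p.Prime)).1 (orderOf_dvd_of_pow_eq_one h1)
      have h5 : p ^ i ≤ W := by rw [← hi2]; exact Nat.le_of_dvd hWpos h2
      have h6 : i < W := lt_of_lt_of_le (Nat.lt_pow_self (Fact.out : p.Prime).one_lt) h5
      rw [← orderOf_dvd_iff_pow_eq_one, hi2]
      exact pow_dvd_pow p (by omega)
    have h7 : (((x.toMul : (𝓞 F)ˣ) : F) : AlgebraicClosure K) ^ p ^ n = 1 := by
      have h8 := congrArg (fun y : (𝓞 F)ˣ => (((y : 𝓞 F) : F) : AlgebraicClosure K)) h4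
      simpa using h8
    have h9 := Pool.Agent.Helper65.TH.cyc_spec p K g n _ h7
    rw [← ha] at h9
    apply Additive.toMul.injective
    apply Units.ext
    apply RingOfIntegers.ext
    apply Subtype.ext
    have h10 : (((((ug F g x).toMul : (𝓞 F)ˣ) : 𝓞 F) : F) : AlgebraicClosure K) =
        g (((x.toMul : (𝓞 F)ˣ) : F) : AlgebraicClosure K) := by
      exact AlgEquiv.restrictNormal_commutes g F _
    rw [h10, h9]
    simp
  · rw [cyc_eq, ← Ideal.mem_span_singleton, ← PadicInt.ker_toZModPow, RingHom.mem_ker, map_sub,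
      map_natCast, ha, ZMod.natCast_zmod_val, sub_self]

/-- a unit plus a multiple of `p` is a unit -/
theorem unit_add {O : Type} [CommRing O] [Algebra ℤ_[p] O] [Module.Finite ℤ_[p] O] (x t : O)
    (hx : IsUnit x) : IsUnit (x + (p : O) * t) := by
  by_contra hcon
  obtain ⟨M, hM, hxM⟩ := exists_max_ideal_of_mem_nonunits hcon
  have h1 : (M.comap (algebraMap ℤ_[p] O)).IsMaximal :=
    Ideal.isMaximal_comap_of_isIntegral_of_isMaximal M
  have h2 : M.comap (algebraMap ℤ_[p] O) = IsLocalRing.maximalIdeal ℤ_[p] :=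
    IsLocalRing.eq_maximalIdeal h1
  have h3 : (p : ℤ_[p]) ∈ M.comap (algebraMap ℤ_[p] O) := by
    rw [h2, PadicInt.maximalIdeal_eq_span_p]
    exact Ideal.mem_span_singleton_self _
  have h4 : (p : O) ∈ M := by
    have h5 : algebraMap ℤ_[p] O (p : ℤ_[p]) ∈ M := h3
    rwa [map_natCast] at h5
  have h6 : x ∈ M := by
    have := M.sub_mem hxM (M.mul_mem_right t h4)
    rwa [add_sub_cancel_right] at this
  exact hM.ne_top (M.eq_top_of_isUnit_mem h6 hx)

/-- `δ ≠ 0` divides a power of `p` -/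
theorem dvd_pow_p {O : Type} [CommRing O] [IsDomain O] [Algebra ℤ_[p] O] [Module.Finite ℤ_[p] O]
    (δ : O) (hδ : δ ≠ 0) : ∃ C : ℕ, δ ∣ (p : O) ^ C := by
  have h0 : IsAlgebraic ℤ_[p] δ := (Algebra.IsIntegral.isIntegral (R := ℤ_[p]) δ).isAlgebraic
  obtain ⟨r, hr, hd⟩ := h0.exists_nonzero_dvd (mem_nonZeroDivisors_of_ne_zero hδ)
  refine ⟨r.valuation, ?_⟩
  have hs := PadicInt.unitCoeff_spec hr
  have h1 : (p : ℤ_[p]) ^ r.valuation = r * ((PadicInt.unitCoeff hr)⁻¹ : ℤ_[p]ˣ) := by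
    nth_rewrite 2 [hs]
    rw [mul_comm ((PadicInt.unitCoeff hr : ℤ_[p]ˣ) : ℤ_[p]), mul_assoc, Units.mul_inv, mul_one]
  have h2 : (p : O) ^ r.valuation = algebraMap ℤ_[p] O ((p : ℤ_[p]) ^ r.valuation) := by
    rw [map_pow, map_natCast]
  rw [h2, h1, map_mul]
  exact hd.mul_right _

/-- the valuation of `1 - u^(p^m)` -/
theorem u_pow (hp2 : p ≠ 2) (u : ℤ_[p]) (h1 : (p : ℤ_[p]) ∣ u - 1)
    (h2 : ¬ (p : ℤ_[p]) ^ 2 ∣ u - 1) (m : ℕ) :
    ∃ w : ℤ_[p]ˣ, 1 - u ^ p ^ m = (p : ℤ_[p]) ^ (m + 1) * w := by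
  have hp : p.Prime := Fact.out
  have hpp : Prime (p : ℤ_[p]) := PadicInt.prime_p
  have hodd : Odd p := hp.odd_of_ne_two hp2
  have hu : ¬ (p : ℤ_[p]) ∣ u := by
    intro h
    have h3 := dvd_sub h h1
    rw [sub_sub_cancel] at h3
    exact hpp.not_isUnit (isUnit_of_dvd_one h3)
  have hlt := emultiplicity_pow_prime_pow_sub_pow_prime_pow (R := ℤ_[p]) (x := u) (y := 1) hpp hodd
    h1 hu m
  have h3 : emultiplicity (p : ℤ_[p]) (u - 1) = (1 : ℕ) := by
    rw [emultiplicity_eq_coe]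
    exact ⟨by rw [pow_one]; exact h1, h2⟩
  rw [h3, one_pow] at hlt
  have h4 : emultiplicity (p : ℤ_[p]) (u ^ p ^ m - 1) = ((m + 1 : ℕ) : ℕ∞) := by
    rw [hlt]
    push_cast
    ring
  rw [emultiplicity_eq_coe] at h4
  obtain ⟨⟨s, hs⟩, h6⟩ := h4
  have h7 : IsUnit s := by
    by_contra hcon
    have h8 : s ∈ IsLocalRing.maximalIdeal ℤ_[p] := hcon
    rw [PadicInt.maximalIdeal_eq_span_p, Ideal.mem_span_singleton] at h8
    obtain ⟨t, rfl⟩ := h8
    exact h6 ⟨t, by rw [hs, pow_succ _ (m + 1)]; ring⟩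
  obtain ⟨s, rfl⟩ := h7
  refine ⟨-s, ?_⟩
  rw [← neg_sub, hs, Units.val_neg]
  ring

end

end Pool.Agent.Helper17.SDX
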